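import Pool.Agent.Helper20.IIC.Stmts

set_option autoImplicit false

namespace IIC

open Filter Topology Set MeasureTheory
open scoped BigOperators

theorem GEN_clopen {d : ℕ} (A : Set (Cfg d)) (hA : IsCyl A) : IsClopen A := by
  obtain ⟨F, hF⟩ := hA
  have e : A = (F.restrict : Cfg d → (F → Bool)) ⁻¹' ((F.restrict : Cfg d → (F → Bool)) '' A) := by
    ext ω
    constructor
    · intro h
      exact ⟨ω, h, rfl⟩
    · rintro ⟨ω', h, h'⟩
      refine (hF ω ω' fun e he => ?_).2 h
      exact (congrFun h' ⟨e, he⟩).symm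
  rw [e]
  exact (isClopen_discrete _).preimage (Finset.continuous_restrict F)

theorem GEN_w_nonneg {d : ℕ} {β : ℝ} (hβ : 0 ≤ β) (Λ T : Finset (Ed d)) : 0 ≤ wW β Λ T := by
  unfold wW
  have h : 1 ≤ Real.exp (2 * β) := Real.one_le_exp (by linarith)
  have h2 : 0 ≤ Real.exp (2 * β) - 1 := by linarith
  positivity

theorem GEN_Z_pos {d : ℕ} {β : ℝ} (hβ : 0 ≤ β) (Λ : Finset (Ed d)) :
    0 < ∑ T ∈ Λ.powerset, wW β Λ T := by
  apply Finset.sum_pos' (fun T _ => GEN_w_nonneg hβ Λ T)
  refine ⟨∅, by simp, ?_⟩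
  unfold wW
  simp

theorem GEN_cyl_univ {d : ℕ} : IsCyl (Set.univ : Set (Cfg d)) :=
  ⟨∅, fun _ _ _ => by simp⟩

/-- the finite volume measure -/
theorem GEN_fin {d : ℕ} {β : ℝ} (hβ : 0 ≤ β) (Λ : Finset (Ed d)) :
    ∃ μ : ProbabilityMeasure (Cfg d), ∀ A : Set (Cfg d), IsCyl A →
      (μ : Measure (Cfg d)).real A = PW β Λ A := by
  classical
  set Z := ∑ T ∈ Λ.powerset, wW β Λ T with hZ
  have hZ0 : 0 < Z := GEN_Z_pos hβ Λ
  let m : Measure (Cfg d) :=
    ∑ T ∈ Λ.powerset, ENNReal.ofReal (wW β Λ T / Z) • Measure.dirac (exw Λ T)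
  have hm : ∀ A : Set (Cfg d), IsCyl A → m A = ENNReal.ofReal (PW β Λ A) := by
    intro A hA
    have hmeas : MeasurableSet A := (GEN_clopen A hA).isOpen.measurableSet
    have h1 : PW β Λ A = ∑ T ∈ Λ.powerset, A.indicator (fun _ => wW β Λ T / Z) (exw Λ T) := by
      unfold PW
      rw [Finset.sum_div]
      refine Finset.sum_congr rfl fun T _ => ?_
      by_cases h : exw Λ T ∈ A
      · rw [Set.indicator_of_mem h, Set.indicator_of_mem h]
      · rw [Set.indicator_of_notMem h, Set.indicator_of_notMem h, zero_div]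
    rw [h1, ENNReal.ofReal_sum_of_nonneg]
    · simp only [m, Measure.finsetSum_apply, Measure.smul_apply, smul_eq_mul]
      refine Finset.sum_congr rfl fun T _ => ?_
      rw [Measure.dirac_apply' _ hmeas]
      by_cases h : exw Λ T ∈ A
      · rw [Set.indicator_of_mem h, Set.indicator_of_mem h]
        simp
      · rw [Set.indicator_of_notMem h, Set.indicator_of_notMem h]
        simp
    · intro T _
      apply Set.indicator_nonneg
      intro _ _
      exact div_nonneg (GEN_w_nonneg hβ Λ T) hZ0.le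
  have hu : PW β Λ Set.univ = 1 := by
    unfold PW
    simp only [Set.indicator_univ]
    exact div_self hZ0.ne'
  have hp : IsProbabilityMeasure m := ⟨by rw [hm _ GEN_cyl_univ, hu]; simp⟩
  refine ⟨⟨m, hp⟩, fun A hA => ?_⟩
  show (m A).toReal = _
  rw [hm A hA, ENNReal.toReal_ofReal]
  unfold PW
  apply div_nonneg _ hZ0.le
  exact Finset.sum_nonneg fun T _ => Set.indicator_nonneg (fun _ _ => GEN_w_nonneg hβ Λ T) _

theorem GEN_lim {d : ℕ} {ι : Type*} (U : Filter ι) (P : ι → ProbabilityMeasure (Cfg d))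
    (μ : ProbabilityMeasure (Cfg d)) (h : Tendsto P U (𝓝 μ)) (A : Set (Cfg d)) (hA : IsCyl A) :
    Tendsto (fun i => (P i : Measure (Cfg d)).real A) U (𝓝 ((μ : Measure (Cfg d)).real A)) := by
  have hc := GEN_clopen A hA
  have hmeas : MeasurableSet A := hc.isOpen.measurableSet
  have h1 := ProbabilityMeasure.tendsto_iff_forall_integral_tendsto.1 h
    (BoundedContinuousFunction.indicator A hc)
  have e : ∀ ν : Measure (Cfg d), ∫ ω, (BoundedContinuousFunction.indicator A hc) ω ∂ν =
      ν.real A := by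
    intro ν
    exact integral_indicator_one hmeas
  simpa only [e] using h1

theorem st_GEN (hL : ST_LIM) : ST_GEN := by
  intro d β hβ
  constructor
  · choose P hP using fun Λ : Finset (Ed d) => GEN_fin hβ Λ
    obtain ⟨μ, hμ⟩ := exists_clusterPt_of_compactSpace
      (Filter.map P (atTop : Filter (Finset (Ed d))))
    obtain ⟨U, hU, hUt⟩ := mapClusterPt_iff_ultrafilter.1 hμ
    refine ⟨μ, inferInstance, fun A hA => ?_⟩
    have h1 := GEN_lim (U : Filter (Finset (Ed d))) P μ hUt A hA
    simp only [fun Λ => hP Λ A hA] at h1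
    have h2 := (((hL d β hβ).2 A Set.univ hA isUpperSet_univ).1)
    rw [Set.inter_univ] at h2
    have h3 := h2.mono_left hU
    have h4 := tendsto_nhds_unique h1 h3
    rw [h4]
    exact h2
  · intro μ ν hμ hν
    obtain ⟨hμ1, hμ2⟩ := hμ
    obtain ⟨hν1, hν2⟩ := hν
    refine ext_of_generate_finite (measurableCylinders fun _ : Ed d => Bool)
      generateFrom_measurableCylinders.symm isPiSystem_measurableCylinders ?_ (by simp)
    intro A hA
    obtain ⟨s, S, hS, rfl⟩ := (mem_measurableCylinders _).1 hA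
    have hcyl : IsCyl (cylinder s S : Set (Cfg d)) := by
      refine ⟨s, fun ω ω' h => ?_⟩
      have e : s.restrict ω = s.restrict ω' := by
        funext i
        exact h i.1 i.2
      rw [mem_cylinder, mem_cylinder]
      show s.restrict ω ∈ S ↔ s.restrict ω' ∈ S
      rw [e]
    have h1 := tendsto_nhds_unique (hμ2 _ hcyl) (hν2 _ hcyl)
    have h2 : (μ (cylinder s S)).toReal = (ν (cylinder s S)).toReal := h1
    rwa [ENNReal.toReal_eq_toReal_iff' (measure_ne_top _ _) (measure_ne_top _ _)] at h2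

end IIC
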