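import Pool.Agent.Helper20.IIC.Stmts

set_option autoImplicit false

namespace IIC

open Filter Topology Set
open scoped BigOperators

theorem LATC_symm {d : ℕ} (ω : Cfg d) {x y : Fin d → ℤ} (h : LConn ω x y) : LConn ω y x := by
  unfold LConn Conn at *
  induction h with
  | refl => exact Relation.ReflTransGen.refl
  | tail _ hbc ih =>
    obtain ⟨e, he, h1⟩ := hbc
    exact Relation.ReflTransGen.head ⟨e, he, by rw [h1, Sym2.eq_swap]⟩ ih

theorem LATC_le_nrm {d : ℕ} (x : Fin d → ℤ) (i : Fin d) : (x i).natAbs ≤ nrm x :=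
  Finset.le_sup (f := fun i => (x i).natAbs) (Finset.mem_univ i)

theorem LATC_step {d n : ℕ} (ω : Cfg d)
    (hω : ∀ e : Ed d, (∀ v ∈ le e, n ≤ nrm v) → ω e = true) (z : Fin d → ℤ) (i j : Fin d)
    (hij : i ≠ j) (hz : n ≤ (z i).natAbs) (a : ℤ) :
    LConn ω (Function.update z j a) (Function.update z j (a + 1)) := by
  have hadj : (lat d).Adj (Function.update z j a) (Function.update z j (a + 1)) := by
    show ∑ k, |Function.update z j a k - Function.update z j (a + 1) k| = 1
    rw [Finset.sum_eq_single j]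
    · simp
    · intro b _ hb
      simp [hb]
    · intro h
      exact absurd (Finset.mem_univ j) h
  have hn : ∀ t : ℤ, n ≤ nrm (Function.update z j t) := by
    intro t
    refine le_trans ?_ (LATC_le_nrm (Function.update z j t) i)
    rw [Function.update_of_ne hij]
    exact hz
  refine Relation.ReflTransGen.single ⟨⟨s(Function.update z j a, Function.update z j (a + 1)),
    hadj⟩, ?_, rfl⟩
  show ω _ = true
  apply hω
  intro v hv
  have hv' : v ∈ s(Function.update z j a, Function.update z j (a + 1)) := hv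
  rw [Sym2.mem_iff] at hv'
  rcases hv' with rfl | rfl
  · exact hn _
  · exact hn _

theorem LATC_move {d n : ℕ} (ω : Cfg d)
    (hω : ∀ e : Ed d, (∀ v ∈ le e, n ≤ nrm v) → ω e = true) (z : Fin d → ℤ) (i j : Fin d)
    (hij : i ≠ j) (hz : n ≤ (z i).natAbs) (a b : ℤ) :
    LConn ω (Function.update z j a) (Function.update z j b) := by
  have up : ∀ (k : ℕ) (a : ℤ),
      LConn ω (Function.update z j a) (Function.update z j (a + k)) := by
    intro k
    induction k with
    | zero =>
      intro a
      simp only [Nat.cast_zero, add_zero]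
      exact Relation.ReflTransGen.refl
    | succ k ih =>
      intro a
      have h1 := ih a
      have h2 := LATC_step ω hω z i j hij hz (a + k)
      have e : a + ((k + 1 : ℕ) : ℤ) = a + k + 1 := by push_cast; ring
      rw [e]
      exact Relation.ReflTransGen.trans h1 h2
  rcases le_total a b with h | h
  · have := up (b - a).toNat a
    rwa [Int.toNat_of_nonneg (by omega), add_sub_cancel] at this
  · have := up (a - b).toNat b
    rw [Int.toNat_of_nonneg (by omega), add_sub_cancel] at this
    exact LATC_symm ω this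

theorem LATC_moves {d n : ℕ} (ω : Cfg d)
    (hω : ∀ e : Ed d, (∀ v ∈ le e, n ≤ nrm v) → ω e = true) (z w : Fin d → ℤ) (i : Fin d)
    (hz : n ≤ (z i).natAbs) (hzw : z i = w i) : LConn ω z w := by
  classical
  have key : ∀ s : Finset (Fin d), i ∉ s → LConn ω z (fun k => if k ∈ s then w k else z k) := by
    intro s
    induction s using Finset.induction_on with
    | empty =>
      intro _
      simp only [Finset.notMem_empty, if_false]
      exact Relation.ReflTransGen.refl
    | insert j s hj ih =>
      intro hi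
      rw [Finset.mem_insert, not_or] at hi
      have h1 := ih hi.2
      set z' : Fin d → ℤ := fun k => if k ∈ s then w k else z k with hz'
      have h2 := LATC_move ω hω z' i j hi.1 (by simp only [hz', hi.2, if_false]; exact hz)
        (z' j) (w j)
      rw [Function.update_eq_self] at h2
      have e : (fun k => if k ∈ insert j s then w k else z k) = Function.update z' j (w j) := by
        funext k
        by_cases hk : k = j
        · subst hk
          simp
        · rw [Function.update_of_ne hk]
          simp [hz', hk]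
      rw [e]
      exact Relation.ReflTransGen.trans h1 h2
  have h := key (Finset.univ.erase i) (Finset.notMem_erase i _)
  have e : (fun k => if k ∈ Finset.univ.erase i then w k else z k) = w := by
    funext k
    by_cases hk : k = i
    · subst hk
      simp [hzw]
    · simp [hk]
  rwa [e] at h

theorem LATC_conn {d n : ℕ} (hd : 2 ≤ d) (ω : Cfg d)
    (hω : ∀ e : Ed d, (∀ v ∈ le e, n ≤ nrm v) → ω e = true) (x y : Fin d → ℤ)
    (hx : n ≤ nrm x) (hy : n ≤ nrm y) : LConn ω x y := by
  classical
  have hne : (Finset.univ : Finset (Fin d)).Nonempty := ⟨⟨0, by omega⟩, Finset.mem_univ _⟩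
  have hother : ∀ i : Fin d, ∃ j : Fin d, i ≠ j := by
    intro i
    by_cases h : i = ⟨0, by omega⟩
    · exact ⟨⟨1, by omega⟩, by rw [h]; simp⟩
    · exact ⟨⟨0, by omega⟩, h⟩
  have hidx : ∀ z : Fin d → ℤ, n ≤ nrm z → ∃ i, n ≤ (z i).natAbs := by
    intro z hz
    obtain ⟨i, _, hi⟩ := Finset.exists_mem_eq_sup Finset.univ hne (fun i => (z i).natAbs)
    exact ⟨i, by
      have : nrm z = (z i).natAbs := hi
      omega⟩
  have hp : ∀ (z : Fin d → ℤ) (i j : Fin d), i ≠ j → n ≤ (z i).natAbs →
      LConn ω z (Pi.single j (n : ℤ)) := by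
    intro z i j hij hz
    have h1 := LATC_moves ω hω z (Function.update z j (n : ℤ)) i hz
      (by rw [Function.update_of_ne hij])
    have h2 := LATC_moves ω hω (Function.update z j (n : ℤ)) (Pi.single j (n : ℤ)) j
      (by simp) (by simp)
    exact Relation.ReflTransGen.trans h1 h2
  have hpp : ∀ j k : Fin d, LConn ω (Pi.single j (n : ℤ)) (Pi.single k (n : ℤ)) := by
    intro j k
    by_cases h : j = k
    · rw [h]
      exact Relation.ReflTransGen.refl
    · exact hp _ j k h (by simp)
  obtain ⟨i, hi⟩ := hidx x hx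
  obtain ⟨i', hi'⟩ := hidx y hy
  obtain ⟨j, hj⟩ := hother i
  obtain ⟨j', hj'⟩ := hother i'
  exact Relation.ReflTransGen.trans (hp x i j hj hi)
    (Relation.ReflTransGen.trans (hpp j j') (LATC_symm ω (hp y i' j' hj' hi')))

theorem LATC_exw {d : ℕ} (Λ T : Finset (Ed d)) : ∃ n : ℕ,
    ∀ e : Ed d, (∀ v ∈ le e, n ≤ nrm v) → exw Λ T e = true := by
  classical
  refine ⟨(vts Λ).sup nrm + 1, fun e he => ?_⟩
  have hne : e ∉ Λ := by
    intro hmem
    have h0 : ∃ v, v ∈ le e := by
      induction h : le e with
      | _ a b => exact ⟨a, by simp⟩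
    obtain ⟨v, hv⟩ := h0
    have h1 : v ∈ vts Λ := by
      unfold vts
      rw [Finset.mem_biUnion]
      exact ⟨e, hmem, by rw [Sym2.mem_toFinset]; exact hv⟩
    have h2 : nrm v ≤ (vts Λ).sup nrm := Finset.le_sup h1
    have h3 := he v hv
    omega
  unfold exw ext
  simp [hne]

theorem LATC_fin {d : ℕ} (n : ℕ) : {x : Fin d → ℤ | nrm x < n}.Finite := by
  apply Set.Finite.subset (Set.finite_Icc (fun _ : Fin d => -(n : ℤ)) (fun _ => (n : ℤ)))
  intro x hx
  have h : ∀ i, (x i).natAbs < n := fun i => lt_of_le_of_lt (LATC_le_nrm x i) hx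
  constructor
  · intro i
    have := h i
    show -(n : ℤ) ≤ x i
    omega
  · intro i
    have := h i
    show x i ≤ (n : ℤ)
    omega

theorem LATC_far {d : ℕ} (ω : Cfg d) (x : Fin d → ℤ) (h : Infin ω x) (n : ℕ) :
    ∃ y, LConn ω x y ∧ n ≤ nrm y := by
  by_contra hcon
  push Not at hcon
  apply h
  apply Set.Finite.subset (LATC_fin (d := d) n)
  intro y hy
  exact hcon y hy

theorem st_LATC : ST_LATC := by
  intro d hd
  refine ⟨fun x y => LATC_conn (n := 0) hd _ (fun _ _ => rfl) x y (Nat.zero_le _) (Nat.zero_le _),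
    fun Λ T => ?_, fun Λ T x y hx hy => ?_⟩
  · obtain ⟨n, hn⟩ := LATC_exw Λ T
    exact ⟨n, fun x y hx hy => LATC_conn hd _ hn x y hx hy⟩
  · obtain ⟨n, hn⟩ := LATC_exw Λ T
    obtain ⟨x', hx', hx2⟩ := LATC_far _ x hx n
    obtain ⟨y', hy', hy2⟩ := LATC_far _ y hy n
    exact Relation.ReflTransGen.trans hx'
      (Relation.ReflTransGen.trans (LATC_conn hd _ hn x' y' hx2 hy2) (LATC_symm _ hy'))

end IIC
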